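import Pool.Agent.Work.MP_db9399_all_helper95.VIZ

/-!
# Edge colouring of the final reserve graph when released edges may lie inside `M`

`M` (Miss) and `F` (Forced) are disjoint, there are no edges `F`-`F` and `F`-`M`, at most `f` edges
inside `M` at every vertex of `M`, every vertex outside has at least `f` neighbours in `F` and degree
at most `r - 1`; then `r` colours suffice.
-/

set_option autoImplicit false
set_option linter.unusedSectionVars false

namespace Pool.Agent.Work.MP_db9399_all.VIZ

open Finset Classical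

universe u

variable {V : Type u} [Fintype V]

/-- insertion of a star with centre `v`, the edges at `v` which are coloured keep their colours -/
theorem insert_star (H H' : SimpleGraph V) (K : Finset ℕ) (v : V) (t : V → V → ℕ)
    (ht : Col K H t) (S : Finset V)
    (hH' : ∀ a b, H'.Adj a b → H.Adj a b ∨ (a = v ∧ b ∈ S) ∨ (b = v ∧ a ∈ S))
    (hSv : v ∉ S) (hSH : ∀ u ∈ S, ¬ H.Adj v u)
    (hS : S.card + (nb H v).card ≤ K.card)
    (h2 : ∀ u ∈ S, (nb H u).card + (nb H v).card + 2 ≤ K.card) :
    ∃ t' : V → V → ℕ, Col K H' t' := by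
  set C : Finset ℕ := (nb H v).image (t v) with hC
  set K' : Finset ℕ := K \ C with hK'
  have hCc : C.card ≤ (nb H v).card := card_image_le
  have hCK : C ⊆ K := by
    intro l hl
    obtain ⟨b, hb, rfl⟩ := mem_image.1 hl
    exact ht.mem v b (mem_filter.1 hb).2
  have hK'c : K'.card + C.card = K.card := by
    rw [hK', card_sdiff_of_subset hCK]
    have := card_le_card hCK
    omega
  have hK'K : K' ⊆ K := sdiff_subset
  set H0 : SimpleGraph V :=
    { Adj := fun a b => H.Adj a b ∧ t a b ∉ C
      symm := ⟨fun a b h => ⟨h.1.symm, by rw [ht.symm b a]; exact h.2⟩⟩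
      loopless := ⟨fun a h => H.loopless.irrefl a h.1⟩ } with hH0
  have hcol0 : Col K' H0 t := ⟨ht.symm, fun a b h => mem_sdiff.2 ⟨ht.mem a b h.1, h.2⟩,
    fun a b b' h h' e => ht.inj a b b' h.1 h'.1 e⟩
  have hv0 : ∀ b, ¬ H0.Adj v b := fun b h =>
    h.2 (mem_image_of_mem _ (mem_filter.2 ⟨mem_univ _, h.1⟩))
  set M : V → Finset ℕ := fun u => K'.filter (fun l => Miss H0 t u l) with hM
  have hMcard : ∀ u ∈ S, 2 ≤ (M u).card := by
    intro u hu
    have h1 : K' \ (M u) ⊆ (nb H u).image (t u) := by
      intro l hl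
      rw [Finset.mem_sdiff] at hl
      have h3 : ¬ Miss H0 t u l := fun h => hl.2 (mem_filter.2 ⟨hl.1, h⟩)
      unfold Miss at h3
      push Not at h3
      obtain ⟨b, hb, hbl⟩ := h3
      exact mem_image.2 ⟨b, mem_filter.2 ⟨mem_univ _, hb.1⟩, hbl⟩
    have h3 := (Finset.card_le_card h1).trans Finset.card_image_le
    rw [Finset.card_sdiff_of_subset (Finset.filter_subset _ _)] at h3
    have h4 := h2 u hu
    have h5 : (M u).card ≤ K'.card := Finset.card_le_card (Finset.filter_subset _ _)
    have h7 : (M u).card = (K'.filter (fun l => Miss H0 t u l)).card := rfl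
    omega
  obtain ⟨t', s, ht', hsinj, hs⟩ := main K'.card K' rfl H0 t S M v hcol0 (by omega)
    (fun u _ => Finset.filter_subset _ _) (fun u _ l hl => (mem_filter.1 hl).2)
    (fun u hu => by have := hMcard u hu; omega) (fun u hu _ => hMcard u hu)
  set T : V → V → ℕ := fun a b => if a = v ∧ b ∈ S then s b else if b = v ∧ a ∈ S then s a
    else if H.Adj a b ∧ t a b ∈ C then t a b else t' a b with hT
  -- the values of `T`
  have T1 : ∀ b ∈ S, T v b = s b := fun b hb => by
    show (if v = v ∧ b ∈ S then s b else _) = s b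
    rw [if_pos ⟨rfl, hb⟩]
  have T1' : ∀ a ∈ S, T a v = s a := fun a ha => by
    have hav : a ≠ v := fun h => hSv (h ▸ ha)
    show (if a = v ∧ v ∈ S then s v else if v = v ∧ a ∈ S then s a else _) = s a
    rw [if_neg (fun h => hav h.1), if_pos ⟨rfl, ha⟩]
  have hnoH : ∀ a b, H.Adj a b → ¬ (a = v ∧ b ∈ S) ∧ ¬ (b = v ∧ a ∈ S) := by
    intro a b h
    refine ⟨?_, ?_⟩
    · rintro ⟨rfl, hb⟩
      exact hSH b hb h
    · rintro ⟨rfl, ha⟩
      exact hSH a ha h.symm
  have T2 : ∀ a b, H.Adj a b → t a b ∈ C → T a b = t a b := fun a b h hc => by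
    show (if a = v ∧ b ∈ S then s b else if b = v ∧ a ∈ S then s a
      else if H.Adj a b ∧ t a b ∈ C then t a b else t' a b) = t a b
    rw [if_neg (hnoH a b h).1, if_neg (hnoH a b h).2, if_pos ⟨h, hc⟩]
  have T3 : ∀ a b, H0.Adj a b → T a b = t' a b := fun a b h => by
    show (if a = v ∧ b ∈ S then s b else if b = v ∧ a ∈ S then s a
      else if H.Adj a b ∧ t a b ∈ C then t a b else t' a b) = t' a b
    rw [if_neg (hnoH a b h.1).1, if_neg (hnoH a b h.1).2, if_neg (fun h' => h.2 h'.2)]
  have cases3 : ∀ a b, H'.Adj a b → (a = v ∧ b ∈ S) ∨ (b = v ∧ a ∈ S) ∨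
      (H.Adj a b ∧ t a b ∈ C) ∨ H0.Adj a b := by
    intro a b h
    rcases hH' a b h with h | h | h
    · by_cases hc : t a b ∈ C
      · exact Or.inr (Or.inr (Or.inl ⟨h, hc⟩))
      · exact Or.inr (Or.inr (Or.inr ⟨h, hc⟩))
    · exact Or.inl h
    · exact Or.inr (Or.inl h)
  have hK'C : ∀ l, l ∈ K' → l ∉ C := fun l hl => (mem_sdiff.1 hl).2
  refine ⟨T, fun a b => ?_, fun a b hab => ?_, fun a b b' hb hb' e => ?_⟩
  · -- symmetry
    show (if a = v ∧ b ∈ S then s b else if b = v ∧ a ∈ S then s a
      else if H.Adj a b ∧ t a b ∈ C then t a b else t' a b) =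
      (if b = v ∧ a ∈ S then s a else if a = v ∧ b ∈ S then s b
      else if H.Adj b a ∧ t b a ∈ C then t b a else t' b a)
    by_cases h1 : a = v ∧ b ∈ S
    · have h2 : ¬ (b = v ∧ a ∈ S) := by
        rintro ⟨rfl, _⟩
        exact hSv h1.2
      rw [if_pos h1, if_neg h2, if_pos h1]
    · rw [if_neg h1]
      by_cases h2 : b = v ∧ a ∈ S
      · rw [if_pos h2, if_pos h2]
      · rw [if_neg h2, if_neg h2, if_neg h1, ht.symm b a, ht'.symm b a]
        by_cases h3 : H.Adj a b ∧ t a b ∈ C
        · rw [if_pos h3, if_pos ⟨h3.1.symm, h3.2⟩]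
        · rw [if_neg h3, if_neg (fun h => h3 ⟨h.1.symm, h.2⟩)]
  · rcases cases3 a b hab with ⟨rfl, h⟩ | ⟨rfl, h⟩ | ⟨h, hc⟩ | h
    · rw [T1 b h]; exact hK'K (hs b h).1
    · rw [T1' a h]; exact hK'K (hs a h).1
    · rw [T2 a b h hc]; exact ht.mem a b h
    · rw [T3 a b h]; exact hK'K (ht'.mem a b h)
  · rcases cases3 a b hb with ⟨rfl, h⟩ | ⟨rfl, h⟩ | ⟨h, hc⟩ | h
    · rw [T1 b h] at e
      rcases cases3 a b' hb' with ⟨_, h'⟩ | ⟨rfl, h'⟩ | ⟨h', hc'⟩ | h'
      · rw [T1 b' h'] at e
        exact hsinj (mem_coe.2 h) (mem_coe.2 h') e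
      · exact absurd h' hSv
      · rw [T2 a b' h' hc'] at e
        exact absurd (e ▸ hc') (hK'C _ (hs b h).1)
      · exact absurd h' (hv0 b')
    · rw [T1' a h] at e
      rcases cases3 a b' hb' with ⟨rfl, h'⟩ | ⟨rfl, h'⟩ | ⟨h', hc'⟩ | h'
      · exact absurd h hSv
      · rfl
      · rw [T2 a b' h' hc'] at e
        exact absurd (e ▸ hc') (hK'C _ (hs a h).1)
      · rw [T3 a b' h'] at e
        exact absurd e.symm ((hs a h).2 b' h')
    · rw [T2 a b h hc] at e
      rcases cases3 a b' hb' with ⟨rfl, h'⟩ | ⟨rfl, h'⟩ | ⟨h', hc'⟩ | h'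
      · rw [T1 b' h'] at e
        exact absurd (e ▸ hc) (hK'C _ (hs b' h').1)
      · rw [T1' a h'] at e
        exact absurd (e ▸ hc) (hK'C _ (hs a h').1)
      · rw [T2 a b' h' hc'] at e
        exact ht.inj a b b' h h' e
      · rw [T3 a b' h'] at e
        exact absurd (e ▸ hc) (hK'C _ (ht'.mem a b' h'))
    · rw [T3 a b h] at e
      rcases cases3 a b' hb' with ⟨rfl, h'⟩ | ⟨rfl, h'⟩ | ⟨h', hc'⟩ | h'
      · exact absurd h (hv0 b)
      · rw [T1' a h'] at e
        exact absurd e ((hs a h').2 b h)
      · rw [T2 a b' h' hc'] at e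
        exact absurd (e ▸ hc') (hK'C _ (ht'.mem a b h))
      · rw [T3 a b' h'] at e
        exact ht'.inj a b b' h h' e

/-- edges of the stage `(A, B)`: both ends outside `M ∪ F`, or both in `M`, or one end outside and
the other one in `A ∪ B` (`A ⊆ M`, `B ⊆ F`) -/
def stage (G : SimpleGraph V) (M F A B : Finset V) : SimpleGraph V where
  Adj a b := G.Adj a b ∧ ((a ∉ M ∧ a ∉ F ∧ b ∉ M ∧ b ∉ F) ∨ (a ∈ M ∧ b ∈ M) ∨
    (a ∉ M ∧ a ∉ F ∧ (b ∈ A ∨ b ∈ B)) ∨ (b ∉ M ∧ b ∉ F ∧ (a ∈ A ∨ a ∈ B)))
  symm := ⟨fun a b h => ⟨h.1.symm, by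
    rcases h.2 with h | h | h | h
    · exact Or.inl ⟨h.2.2.1, h.2.2.2, h.1, h.2.1⟩
    · exact Or.inr (Or.inl ⟨h.2, h.1⟩)
    · exact Or.inr (Or.inr (Or.inr h))
    · exact Or.inr (Or.inr (Or.inl h))⟩⟩
  loopless := ⟨fun a h => G.loopless.irrefl a h.1⟩

/-- **Finish with edges inside `M`.** -/
theorem finishM (G : SimpleGraph V) (r f : ℕ) (M F : Finset V) (hMF : Disjoint M F)
    (hr : f + 1 ≤ r) (hdeg : ∀ v, (nb G v).card ≤ r)
    (hout : ∀ v, v ∉ M → v ∉ F → (nb G v).card + 1 ≤ r)
    (hM : ∀ v ∈ M, (nb G v ∩ M).card ≤ f)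
    (hMFe : ∀ v ∈ M, ∀ w ∈ F, ¬ G.Adj v w) (hFe : ∀ v ∈ F, ∀ w ∈ F, ¬ G.Adj v w)
    (hnb : ∀ y, y ∉ M → y ∉ F → f ≤ (nb G y ∩ F).card) :
    ∃ t : V → V → ℕ, Col (range r) G t := by
  have hdMF : ∀ v, v ∈ M → v ∉ F := fun v h h' => disjoint_left.1 hMF h h'
  -- stage 1
  have st1 : ∃ t : V → V → ℕ, Col (range r) (stage G M F ∅ ∅) t := by
    obtain ⟨t, ht⟩ := vizing_aux (stage G M F ∅ ∅) (r - 1) (by
      intro v
      by_cases hvM : v ∈ M
      · have hsub : nb (stage G M F ∅ ∅) v ⊆ nb G v ∩ M := by
          intro w hw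
          have h := (mem_filter.1 hw).2
          rcases h.2 with h' | h' | h' | h'
          · exact absurd hvM h'.1
          · exact mem_inter.2 ⟨mem_filter.2 ⟨mem_univ _, h.1⟩, h'.2⟩
          · exact absurd hvM h'.1
          · rcases h'.2.2 with h'' | h'' <;> exact absurd h'' (notMem_empty _)
        have := card_le_card hsub
        have := hM v hvM
        omega
      · have hsub : nb (stage G M F ∅ ∅) v ⊆ nb G v := fun w hw =>
          mem_filter.2 ⟨mem_univ _, (mem_filter.1 hw).2.1⟩
        by_cases hvF : v ∈ F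
        · have : nb (stage G M F ∅ ∅) v = ∅ := by
            rw [eq_empty_iff_forall_notMem]
            intro w hw
            have h := (mem_filter.1 hw).2
            rcases h.2 with h' | h' | h' | h'
            · exact h'.2.1 hvF
            · exact hvM h'.1
            · exact h'.2.1 hvF
            · rcases h'.2.2 with h'' | h'' <;> exact notMem_empty _ h''
          rw [this]
          simp
        · have := card_le_card hsub
          have := hout v hvM hvF
          omega) univ
    have hr1 : r - 1 + 1 = r := by omega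
    rw [hr1] at ht
    exact ⟨t, ht.symm, fun a b h => ht.mem a b ⟨h, mem_univ _, mem_univ _⟩,
      fun a b b' h h' e => ht.inj a b b' ⟨h, mem_univ _, mem_univ _⟩ ⟨h', mem_univ _, mem_univ _⟩ e⟩
  -- stage 2
  have st2 : ∀ A : Finset V, A ⊆ M → ∃ t : V → V → ℕ, Col (range r) (stage G M F A ∅) t := by
    intro A
    induction A using Finset.induction_on with
    | empty => exact fun _ => st1
    | insert v A hv ih =>
      intro hA
      rw [insert_subset_iff] at hA
      obtain ⟨t, ht⟩ := ih hA.2
      have hvF := hdMF v hA.1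
      have hnv : nb (stage G M F A ∅) v ⊆ nb G v ∩ M := by
        intro w hw
        have h := (mem_filter.1 hw).2
        rcases h.2 with h' | h' | h' | h'
        · exact absurd hA.1 h'.1
        · exact mem_inter.2 ⟨mem_filter.2 ⟨mem_univ _, h.1⟩, h'.2⟩
        · exact absurd hA.1 h'.1
        · rcases h'.2.2 with h'' | h''
          · exact absurd h'' hv
          · exact absurd h'' (notMem_empty _)
      set S := (nb G v).filter (fun w => w ∉ M ∧ w ∉ F) with hS
      refine insert_star (stage G M F A ∅) (stage G M F (insert v A) ∅) (range r) v t ht S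
        ?_ ?_ ?_ ?_ ?_
      · intro a b h
        rcases h.2 with h' | h' | h' | h'
        · exact Or.inl ⟨h.1, Or.inl h'⟩
        · exact Or.inl ⟨h.1, Or.inr (Or.inl h')⟩
        · rcases h'.2.2 with h'' | h''
          · rcases mem_insert.1 h'' with h3 | h3
            · refine Or.inr (Or.inr ⟨h3, ?_⟩)
              subst h3
              exact mem_filter.2 ⟨mem_filter.2 ⟨mem_univ _, h.1.symm⟩, h'.1, h'.2.1⟩
            · exact Or.inl ⟨h.1, Or.inr (Or.inr (Or.inl ⟨h'.1, h'.2.1, Or.inl h3⟩))⟩
          · exact absurd h'' (notMem_empty _)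
        · rcases h'.2.2 with h'' | h''
          · rcases mem_insert.1 h'' with h3 | h3
            · refine Or.inr (Or.inl ⟨h3, ?_⟩)
              subst h3
              exact mem_filter.2 ⟨mem_filter.2 ⟨mem_univ _, h.1⟩, h'.1, h'.2.1⟩
            · exact Or.inl ⟨h.1, Or.inr (Or.inr (Or.inr ⟨h'.1, h'.2.1, Or.inl h3⟩))⟩
          · exact absurd h'' (notMem_empty _)
      · intro h
        exact (mem_filter.1 h).2.1 hA.1
      · intro u hu h
        have := hnv (mem_filter.2 ⟨mem_univ _, h⟩)
        exact (mem_filter.1 hu).2.1 (mem_inter.1 this).2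
      · rw [card_range]
        have h1 : S ∪ nb (stage G M F A ∅) v ⊆ nb G v := by
          apply union_subset
          · exact filter_subset _ _
          · exact hnv.trans inter_subset_left
        have h2 : Disjoint S (nb (stage G M F A ∅) v) := by
          rw [disjoint_left]
          intro w hw hw'
          exact (mem_filter.1 hw).2.1 (mem_inter.1 (hnv hw')).2
        have h3 := card_le_card h1
        rw [card_union_of_disjoint h2] at h3
        exact h3.trans (hdeg v)
      · intro u hu
        rw [card_range]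
        have huM := (mem_filter.1 hu).2.1
        have huF := (mem_filter.1 hu).2.2
        have huv : G.Adj v u := (mem_filter.1 (mem_filter.1 hu).1).2
        have h1 : nb (stage G M F A ∅) u ∪ (insert v (nb G u ∩ F)) ⊆ nb G u := by
          apply union_subset
          · exact fun w hw => mem_filter.2 ⟨mem_univ _, (mem_filter.1 hw).2.1⟩
          · rw [insert_subset_iff]
            exact ⟨mem_filter.2 ⟨mem_univ _, huv.symm⟩, inter_subset_left⟩
        have h2 : Disjoint (nb (stage G M F A ∅) u) (insert v (nb G u ∩ F)) := by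
          rw [disjoint_left]
          intro w hw hw'
          have h := (mem_filter.1 hw).2
          rcases mem_insert.1 hw' with rfl | hw'
          · rcases h.2 with h' | h' | h' | h'
            · exact h'.2.2.1 hA.1
            · exact huM h'.1
            · rcases h'.2.2 with h'' | h''
              · exact hv h''
              · exact notMem_empty _ h''
            · exact h'.1 hA.1
          · have hwF := (mem_inter.1 hw').2
            rcases h.2 with h' | h' | h' | h'
            · exact h'.2.2.2 hwF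
            · exact huM h'.1
            · rcases h'.2.2 with h'' | h''
              · exact hdMF w (hA.2 h'') hwF
              · exact notMem_empty _ h''
            · exact h'.2.1 hwF
        have h3 := card_le_card h1
        have hvn : v ∉ nb G u ∩ F := fun h => hvF (mem_inter.1 h).2
        rw [card_union_of_disjoint h2, card_insert_of_notMem hvn] at h3
        have h4 := hnb u huM huF
        have h5 := hout u huM huF
        have h6 := (card_le_card hnv).trans (hM v hA.1)
        omega
  -- stage 3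
  have st3 : ∀ B : Finset V, B ⊆ F → ∃ t : V → V → ℕ, Col (range r) (stage G M F M B) t := by
    intro B
    induction B using Finset.induction_on with
    | empty => exact fun _ => st2 M Subset.rfl
    | insert v B hv ih =>
      intro hB
      rw [insert_subset_iff] at hB
      obtain ⟨t, ht⟩ := ih hB.2
      have hvM : v ∉ M := fun h => hdMF v h hB.1
      have hnv : nb (stage G M F M B) v = ∅ := by
        rw [eq_empty_iff_forall_notMem]
        intro w hw
        have h := (mem_filter.1 hw).2
        rcases h.2 with h' | h' | h' | h'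
        · exact h'.2.1 hB.1
        · exact hvM h'.1
        · exact h'.2.1 hB.1
        · rcases h'.2.2 with h'' | h''
          · exact hvM h''
          · exact hv h''
      set S := (nb G v).filter (fun w => w ∉ M ∧ w ∉ F) with hS
      refine insert_star (stage G M F M B) (stage G M F M (insert v B)) (range r) v t ht S
        ?_ ?_ ?_ ?_ ?_
      · intro a b h
        rcases h.2 with h' | h' | h' | h'
        · exact Or.inl ⟨h.1, Or.inl h'⟩
        · exact Or.inl ⟨h.1, Or.inr (Or.inl h')⟩
        · rcases h'.2.2 with h'' | h''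
          · exact Or.inl ⟨h.1, Or.inr (Or.inr (Or.inl ⟨h'.1, h'.2.1, Or.inl h''⟩))⟩
          · rcases mem_insert.1 h'' with h3 | h3
            · refine Or.inr (Or.inr ⟨h3, ?_⟩)
              subst h3
              exact mem_filter.2 ⟨mem_filter.2 ⟨mem_univ _, h.1.symm⟩, h'.1, h'.2.1⟩
            · exact Or.inl ⟨h.1, Or.inr (Or.inr (Or.inl ⟨h'.1, h'.2.1, Or.inr h3⟩))⟩
        · rcases h'.2.2 with h'' | h''
          · exact Or.inl ⟨h.1, Or.inr (Or.inr (Or.inr ⟨h'.1, h'.2.1, Or.inl h''⟩))⟩
          · rcases mem_insert.1 h'' with h3 | h3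
            · refine Or.inr (Or.inl ⟨h3, ?_⟩)
              subst h3
              exact mem_filter.2 ⟨mem_filter.2 ⟨mem_univ _, h.1⟩, h'.1, h'.2.1⟩
            · exact Or.inl ⟨h.1, Or.inr (Or.inr (Or.inr ⟨h'.1, h'.2.1, Or.inr h3⟩))⟩
      · intro h
        exact (mem_filter.1 h).2.2 hB.1
      · intro u hu h
        have : u ∈ nb (stage G M F M B) v := mem_filter.2 ⟨mem_univ _, h⟩
        rw [hnv] at this
        exact notMem_empty _ this
      · rw [card_range, hnv, card_empty, add_zero]
        exact (card_le_card (filter_subset _ _)).trans (hdeg v)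
      · intro u hu
        rw [card_range, hnv, card_empty, add_zero]
        have huM := (mem_filter.1 hu).2.1
        have huF := (mem_filter.1 hu).2.2
        have huv : G.Adj v u := (mem_filter.1 (mem_filter.1 hu).1).2
        have h1 : insert v (nb (stage G M F M B) u) ⊆ nb G u := by
          rw [insert_subset_iff]
          exact ⟨mem_filter.2 ⟨mem_univ _, huv.symm⟩,
            fun w hw => mem_filter.2 ⟨mem_univ _, (mem_filter.1 hw).2.1⟩⟩
        have h2 : v ∉ nb (stage G M F M B) u := by
          intro hw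
          have : u ∈ nb (stage G M F M B) v := mem_filter.2 ⟨mem_univ _, (mem_filter.1 hw).2.symm⟩
          rw [hnv] at this
          exact notMem_empty _ this
        have h3 := card_le_card h1
        rw [card_insert_of_notMem h2] at h3
        have h5 := hout u huM huF
        omega
  obtain ⟨t, ht⟩ := st3 F Subset.rfl
  have hall : ∀ a b, G.Adj a b → (stage G M F M F).Adj a b := by
    intro a b h
    refine ⟨h, ?_⟩
    by_cases haM : a ∈ M
    · by_cases hbM : b ∈ M
      · exact Or.inr (Or.inl ⟨haM, hbM⟩)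
      · have hbF : b ∉ F := fun h' => hMFe a haM b h' h
        exact Or.inr (Or.inr (Or.inr ⟨hbM, hbF, Or.inl haM⟩))
    · by_cases haF : a ∈ F
      · have hbM : b ∉ M := fun h' => hMFe b h' a haF h.symm
        have hbF : b ∉ F := fun h' => hFe a haF b h' h
        exact Or.inr (Or.inr (Or.inr ⟨hbM, hbF, Or.inr haF⟩))
      · by_cases hbM : b ∈ M
        · exact Or.inr (Or.inr (Or.inl ⟨haM, haF, Or.inl hbM⟩))
        · by_cases hbF : b ∈ F
          · exact Or.inr (Or.inr (Or.inl ⟨haM, haF, Or.inr hbF⟩))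
          · exact Or.inl ⟨haM, haF, hbM, hbF⟩
  exact ⟨t, ht.symm, fun a b h => ht.mem a b (hall a b h),
    fun a b b' h h' e => ht.inj a b b' (hall a b h) (hall a b' h') e⟩

end Pool.Agent.Work.MP_db9399_all.VIZ
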